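import Mathlib

set_option autoImplicit false
open Set Filter Topology MeasureTheory Metric
open scoped ContDiff

namespace Pool.Agent.Results.MP_d02974_an.No

abbrev E (n : ℕ) := EuclideanSpace ℝ (Fin n)

variable {n : ℕ}

/-- The derivative in the `j`-th coordinate. -/
noncomputable def pd (φ : E n → ℝ) (j : Fin n) (x : E n) : ℝ := fderiv ℝ φ x (EuclideanSpace.single j 1)

/-- The matrix valued measure with density `P` with respect to `lam` is the distribution
`E_d u` on `Ω`. -/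
def IsEd (Ω : Set (E n)) (u : E n → E n) (lam : Measure (E n))
    (P : E n → Matrix (Fin n) (Fin n) ℝ) : Prop :=
  ∀ φ : E n → ℝ, ContDiff ℝ ∞ φ → HasCompactSupport φ → tsupport φ ⊆ Ω → ∀ i j,
    ∫ x, φ x * P x i j ∂lam = -∫ x in Ω, ((u x i * pd φ j x + u x j * pd φ i x) / 2 -
      if i = j then (∑ k, u x k * pd φ k x) / n else 0)

/-- The approximate discontinuity set. -/
def Su (Ω : Set (E n)) (u : E n → E n) : Set (E n) :=
  {x ∈ Ω | ¬ ∃ z, Tendsto (fun r => ⨍ y in ball x r, ‖u y - z‖) (𝓝[>] 0) (𝓝 0)}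

/-- The jump set. -/
def Ju (Ω : Set (E n)) (u : E n → E n) : Set (E n) :=
  {x ∈ Ω | ∃ a b ν : E n, a ≠ b ∧ ‖ν‖ = 1 ∧
    Tendsto (fun r => ⨍ y in {y ∈ ball x r | 0 < inner ℝ (y - x) ν}, ‖u y - a‖) (𝓝[>] 0) (𝓝 0) ∧
    Tendsto (fun r => ⨍ y in {y ∈ ball x r | inner ℝ (y - x) ν < 0}, ‖u y - b‖) (𝓝[>] 0) (𝓝 0)}

noncomputable def v (t : ℝ) (k : Fin 2) (x : E 2) : ℝ := x k / (‖x‖ ^ 2 + t ^ 2)

lemma nsq (x : E 2) : ‖x‖ ^ 2 = x 0 ^ 2 + x 1 ^ 2 := by
  simp [EuclideanSpace.norm_sq_eq]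

lemma vsm {t : ℝ} (ht : 0 < t) (k : Fin 2) : ContDiff ℝ ∞ (v t k) :=
  (by fun_prop : ContDiff ℝ ∞ fun x : E 2 => x k).div ((contDiff_norm_sq ℝ).add contDiff_const)
    fun x => by positivity

lemma vpd {t : ℝ} (ht : 0 < t) (k j : Fin 2) (x : E 2) : pd (v t k) j x =
    (if k = j then 1 else 0) / (‖x‖ ^ 2 + t ^ 2) - 2 * x k * x j / (‖x‖ ^ 2 + t ^ 2) ^ 2 := by
  have h0 : ‖x‖ ^ 2 + t ^ 2 ≠ 0 := by positivity
  have h1 := ((EuclideanSpace.proj (𝕜 := ℝ) k).hasFDerivAt (x := x)).mul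
    ((hasDerivAt_inv h0).comp_hasFDerivAt x ((hasStrictFDerivAt_norm_sq x).hasFDerivAt.add_const (t ^ 2)))
  have h2 : v t k = (EuclideanSpace.proj (𝕜 := ℝ) k : E 2 → ℝ) *
      (fun y => y⁻¹) ∘ fun x : E 2 => ‖x‖ ^ 2 + t ^ 2 := by
    ext y; simp [v, div_eq_mul_inv]
  rw [pd, h2, h1.fderiv]
  simp [Pi.single_apply, EuclideanSpace.inner_single_right]
  split_ifs <;> field_simp <;> ring

lemma invI : IntegrableOn (fun x : E 2 => ‖x‖⁻¹) (ball 0 1) := by
  refine integrableOn_ball_of_norm_le_rpow (C := 1) (α := 1) (by simp) (by simp)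
    (.of_forall fun w => ?_) measurable_norm.inv.aestronglyMeasurable
  simp [Real.rpow_neg_one]

lemma vle (t : ℝ) (k : Fin 2) (x : E 2) : |v t k x| ≤ ‖x‖⁻¹ := by
  by_cases h : x = 0
  · simp [v, h]
  have h0 := norm_pos_iff.2 h
  have h1 : |x k| ≤ ‖x‖ := by simpa using PiLp.norm_apply_le x k
  rw [v, abs_div, abs_of_pos (by positivity : 0 < ‖x‖ ^ 2 + t ^ 2), div_le_iff₀ (by positivity)]
  calc |x k| ≤ ‖x‖⁻¹ * ‖x‖ ^ 2 := by field_simp; exact h1
    _ ≤ _ := by gcongr; nlinarith [sq_nonneg t]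

lemma vm (t : ℝ) (k : Fin 2) : Measurable (v t k) := by unfold v; fun_prop

noncomputable def c : ℝ := ∫ y : E 2, 2 / (‖y‖ ^ 2 + 1) ^ 2

lemma cI : Integrable fun y : E 2 => 2 / (‖y‖ ^ 2 + 1) ^ 2 := by
  refine ((integrable_rpow_neg_one_add_norm_sq (E := E 2) (μ := volume) (r := 4)
    (by simp; norm_num)).const_mul 2).congr (.of_forall fun y => ?_)
  simp only
  rw [show (-4 : ℝ) / 2 = -(2 : ℕ) by norm_num, Real.rpow_neg (by positivity), Real.rpow_natCast,
    add_comm, div_eq_mul_inv]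

lemma cpos : 0 < c := integral_pos_of_integrable_nonneg_nonzero (x := 0) (by
    exact continuous_const.div (by fun_prop) fun y => by positivity) cI (fun y => by positivity) (by norm_num)

section
variable {φ : E 2 → ℝ} (h1 : ContDiff ℝ ∞ φ) (h2 : HasCompactSupport φ) (h3 : tsupport φ ⊆ ball 0 1)
include h1 h2 h3

omit h2 h3 in
lemma pc (j : Fin 2) : Continuous (pd φ j) :=
  (h1.continuous_fderiv (by simp)).clm_apply continuous_const

omit h1 h2 in
lemma p0 (j : Fin 2) {x : E 2} (hx : x ∉ ball (0 : E 2) 1) : pd φ j x = 0 :=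
  image_eq_zero_of_notMem_tsupport fun k => hx (h3 (tsupport_fderiv_apply_subset ℝ _ k))

lemma bI (j : Fin 2) : Integrable fun x : E 2 => ‖x‖⁻¹ * |pd φ j x| := by
  obtain ⟨C, hC⟩ := (pc h1 j).bounded_above_of_compact_support (h2.fderiv_apply ℝ _)
  refine (integrableOn_iff_integrable_of_support_subset (s := ball 0 1) fun x hx => ?_).1
    (invI.mul_bdd (c := C) (pc h1 j).abs.aestronglyMeasurable (.of_forall fun x => by simpa using hC x))
  by_contra k
  simp [p0 h3 j k] at hx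

lemma vI (t : ℝ) (k j : Fin 2) : Integrable fun x => v t k x * pd φ j x :=
  (bI h1 h2 h3 j).mono' ((vm t k).mul (pc h1 j).measurable).aestronglyMeasurable
    (.of_forall fun x => by rw [Real.norm_eq_abs, abs_mul]; gcongr; exact vle t k x)

lemma lim (k j : Fin 2) : Tendsto (fun t => ∫ x, v t k x * pd φ j x) (𝓝[>] 0)
    (𝓝 (∫ x, v 0 k x * pd φ j x)) := by
  refine tendsto_integral_filter_of_dominated_convergence _
    (.of_forall fun t => (vI h1 h2 h3 t k j).1) (.of_forall fun t => .of_forall fun x => ?_)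
    (bI h1 h2 h3 j) (.of_forall fun x => ?_)
  · rw [Real.norm_eq_abs, abs_mul]; gcongr; exact vle t k x
  by_cases h : x = 0
  · simp [v, h]
  have h0 := norm_pos_iff.2 h
  refine (ContinuousAt.tendsto (f := fun t => v t k x * pd φ j x) ?_).mono_left nhdsWithin_le_nhds
  unfold v
  fun_prop (disch := positivity)

omit h3 in
lemma ibp {t : ℝ} (ht : 0 < t) (k j : Fin 2) : (Integrable fun x => pd (v t k) j x * φ x) ∧
    ∫ x, v t k x * pd φ j x = -∫ x, pd (v t k) j x * φ x := by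
  have I : ∀ {u φ : E 2 → ℝ}, Continuous u → Continuous φ → HasCompactSupport φ →
      Integrable fun x => u x * φ x := fun hu hφ hc =>
    (hu.mul hφ).integrable_of_hasCompactSupport hc.mul_left
  have a := I (pc (vsm ht k) j) h1.continuous h2
  exact ⟨a, integral_mul_fderiv_eq_neg_fderiv_mul_of_integrable a
    (I (vsm ht k).continuous (pc h1 j) (h2.fderiv_apply ℝ _)) (I (vsm ht k).continuous h1.continuous h2)
    (fun _ _ => (vsm ht k).differentiable (by simp) _) fun _ _ => h1.differentiable (by simp) _⟩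

lemma keyB : ∫ x, v 0 0 x * pd φ 1 x = ∫ x, v 0 1 x * pd φ 0 x := by
  refine tendsto_nhds_unique_of_eventuallyEq (lim h1 h2 h3 0 1) (lim h1 h2 h3 1 0) ?_
  filter_upwards [self_mem_nhdsWithin] with t ht
  rw [(ibp h1 h2 ht _ _).2, (ibp h1 h2 ht _ _).2]
  simp only [vpd ht]
  congr 2; ext x; simp; left; ring

lemma keyA : (∫ x, v 0 0 x * pd φ 0 x) + ∫ x, v 0 1 x * pd φ 1 x = -(c * φ 0) := by
  obtain ⟨C, hC⟩ := h1.continuous.bounded_above_of_compact_support h2
  have l : Tendsto (fun t : ℝ => ∫ y : E 2, 2 / (‖y‖ ^ 2 + 1) ^ 2 * φ (t • y)) (𝓝[>] 0)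
      (𝓝 (∫ y : E 2, 2 / (‖y‖ ^ 2 + 1) ^ 2 * φ 0)) := by
    have := h1.continuous
    refine tendsto_integral_filter_of_dominated_convergence _
      (.of_forall fun t => cI.1.mul (Continuous.aestronglyMeasurable (by fun_prop)))
      (.of_forall fun t => .of_forall fun x => ?_) (cI.mul_const C) (.of_forall fun x => ?_)
    · rw [norm_mul, Real.norm_of_nonneg (by positivity)]; gcongr; exact hC _
    · have : Continuous fun t : ℝ => 2 / (‖x‖ ^ 2 + 1) ^ 2 * φ (t • x) := by fun_prop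
      simpa using (this.tendsto 0).mono_left nhdsWithin_le_nhds
  rw [integral_mul_const] at l
  refine tendsto_nhds_unique_of_eventuallyEq ((lim h1 h2 h3 0 0).add (lim h1 h2 h3 1 1)) l.neg ?_
  filter_upwards [self_mem_nhdsWithin] with t (ht : 0 < t)
  rw [(ibp h1 h2 ht _ _).2, (ibp h1 h2 ht _ _).2, ← neg_add,
    ← integral_add (ibp h1 h2 ht _ _).1 (ibp h1 h2 ht _ _).1]
  have s := Measure.integral_comp_smul (volume : Measure (E 2))
    (fun x => pd (v t 0) 0 x * φ x + pd (v t 1) 1 x * φ x) t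
  have e : ∀ y : E 2, pd (v t 0) 0 (t • y) * φ (t • y) + pd (v t 1) 1 (t • y) * φ (t • y) =
      (t ^ 2)⁻¹ * (2 / (‖y‖ ^ 2 + 1) ^ 2 * φ (t • y)) := fun y => by
    simp only [vpd ht, nsq, if_true, PiLp.smul_apply, smul_eq_mul]
    field_simp; ring
  simp only [e, integral_const_mul, finrank_euclideanSpace, Fintype.card_fin, smul_eq_mul] at s
  rw [abs_of_pos (by positivity)] at s
  rw [mul_left_cancel₀ (by positivity) s]
end

noncomputable def u (x : E 2) : E 2 := !₂[v 0 0 x, -v 0 1 x]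

lemma un (x : E 2) : ‖u x‖ = ‖x‖⁻¹ := by
  rw [← sq_eq_sq₀ (by positivity) (by positivity), nsq]
  by_cases h : x = 0
  · simp [u, v, h]
  have h0 := norm_pos_iff.2 h
  simp [u, v]
  field_simp
  exact (nsq x).symm

lemma uI : IntegrableOn u (ball 0 1) := by
  refine invI.mono' (Measurable.aestronglyMeasurable ?_) (.of_forall fun x => (un x).le)
  have := vm 0 0; have := vm 0 1
  refine (WithLp.measurable_toLp 2 _).comp (measurable_pi_iff.2 fun i => ?_)
  fin_cases i <;> simp <;> fun_prop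

lemma blow (A : ℝ → Set (E 2)) (hA : ∀ r, 0 < r → IsOpen (A r) ∧ (A r).Nonempty ∧ A r ⊆ ball 0 r)
    (a : E 2) : ¬ Tendsto (fun r => ⨍ y in A r, ‖u y - a‖) (𝓝[>] 0) (𝓝 0) := fun h => by
  have h1 := h.eventually (gt_mem_nhds one_pos)
  have h2 : ∀ᶠ r : ℝ in 𝓝[>] 0, r ∈ Ioo 0 (‖a‖ + 1)⁻¹ := Ioo_mem_nhdsGT (by positivity)
  obtain ⟨r, r1, r2, r3⟩ := (h1.and h2).exists
  obtain ⟨o, ne, sb⟩ := hA r r2
  have r4 : r ≤ 1 := r3.le.trans (inv_le_one_of_one_le₀ (by linarith [norm_nonneg a]))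
  have f : volume (A r) ≠ ⊤ := ((measure_mono sb).trans_lt measure_ball_lt_top).ne
  have p : 0 < volume.real (A r) := ENNReal.toReal_pos (o.measure_pos _ ne).ne' f
  have I : IntegrableOn (fun y => ‖u y - a‖) (A r) :=
    ((uI.mono_set (sb.trans (ball_subset_ball r4))).sub (integrableOn_const f)).norm
  have : ∫ _ in A r, (1 : ℝ) ≤ ∫ y in A r, ‖u y - a‖ := by
    refine setIntegral_mono_on_ae (integrableOn_const f) I o.measurableSet ?_
    filter_upwards [compl_mem_ae_iff.2 (measure_singleton (0 : E 2))] with y y0 hy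
    have k1 := norm_sub_norm_le (u y) a
    have k2 : ‖a‖ + 1 ≤ ‖y‖⁻¹ := le_inv_of_le_inv₀ (norm_pos_iff.2 y0)
      ((mem_ball_zero_iff.1 (sb hy)).trans r3).le
    rw [un] at k1; linarith
  rw [setAverage_eq, smul_eq_mul, inv_mul_lt_iff₀ p] at r1
  simp at this
  linarith

theorem result : ∃ n ≥ 2, ∃ (Ω : Set (E n)) (u : E n → E n) (lam : Measure (E n))
    (P : E n → Matrix (Fin n) (Fin n) ℝ), IsOpen Ω ∧ IntegrableOn u Ω ∧ IsFiniteMeasure lam ∧
      lam Ωᶜ = 0 ∧ (∀ i j, Measurable fun x => P x i j) ∧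
      (∀ x, (P x).IsSymm ∧ (P x).trace = 0 ∧ ∑ i, ∑ j, P x i j ^ 2 = 1) ∧
      IsEd Ω u lam P ∧ 0 < lam (Su Ω u \ Ju Ω u) := by
  have s2 : 0 < √2 := by positivity
  have s3 : √2 ^ 2 = 2 := Real.sq_sqrt (by norm_num)
  have cp := cpos
  refine ⟨2, le_rfl, ball 0 1, u, ENNReal.ofReal (c / √2) • Measure.dirac 0,
    fun _ => !![1 / √2, 0; 0, -(1 / √2)], isOpen_ball, uI, ⟨by simp⟩, ?_, fun _ _ => measurable_const,
    fun _ => ⟨?_, by simp, ?_⟩, fun φ h1 h2 h3 i j => ?_, ?_⟩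
  · simp [Measure.dirac_apply' _ measurableSet_ball.compl]
  · ext i j; fin_cases i <;> fin_cases j <;> simp
  · simp; norm_num
  · rw [setIntegral_eq_integral_of_forall_compl_eq_zero fun x hx => by simp [p0 h3 _ hx],
      integral_smul_measure, integral_dirac, ENNReal.toReal_ofReal (by positivity)]
    have I := vI h1 h2 h3 0
    have A := keyA h1 h2 h3
    have B := keyB h1 h2 h3
    rw [← integral_add (I _ _) (I _ _)] at A
    rw [← sub_eq_zero, ← integral_sub (I _ _) (I _ _)] at B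
    have k : ∀ (f g : E 2 → ℝ) (a : ℝ), (∀ x, f x = a * g x) → ∫ x, f x = a * ∫ x, g x :=
      fun f g a h => by simp [h, integral_const_mul]
    fin_cases i <;> fin_cases j
    · rw [k _ _ (1 / 2) fun x => ?_, A]
      · simp; field_simp; rw [s3, mul_comm]
      · simp [u]; ring
    · rw [k _ _ (1 / 2) fun x => ?_, B]
      · simp
      · simp [u]; ring
    · rw [k _ _ (1 / 2) fun x => ?_, B]
      · simp
      · simp [u]; ring
    · rw [k _ _ (-1 / 2) fun x => ?_, A]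
      · simp; field_simp; rw [s3, mul_comm]
      · simp [u]; ring
  · rw [Measure.smul_apply, Measure.dirac_apply_of_mem]
    · simpa using div_pos cp s2
    refine ⟨⟨mem_ball_self one_pos, fun ⟨z, hz⟩ => blow _ (fun r hr => ⟨isOpen_ball,
      nonempty_ball.2 hr, subset_rfl⟩) z hz⟩, fun ⟨_, a, b, ν, _, hν, h, _⟩ => blow
        (fun r => {y ∈ ball 0 r | 0 < inner ℝ (y - 0) ν}) (fun r hr =>
      ⟨?_, ⟨(r / 2) • ν, ?_, ?_⟩, fun y hy => hy.1⟩) a h⟩
    · have : IsOpen {y : E 2 | 0 < inner ℝ (y - 0) ν} := isOpen_lt continuous_const (by fun_prop)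
      exact isOpen_ball.inter this
    · rw [mem_ball_zero_iff, norm_smul, hν, Real.norm_of_nonneg (by positivity)]; linarith
    · simp [inner_smul_left, hν, hr]

end Pool.Agent.Results.MP_d02974_an.No
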